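import Pool.Agent.Helper19.SQ.GoalsC

/-!
Packet 12438 (SQ-INJ, owner helper19): `phi` is injective on `gr (tyc x)`.
-/

namespace Pool.Agent.Helper46.SQ

open Pool.Agent.Helper19.SQ

noncomputable section

theorem inj_count {l : ℕ} (c : ZMod l) (L : List (ZMod l)) :
    ((L.map sg).sum) c = (L.count c : ℤ) := by
  induction L with
  | nil => simp
  | cons b L ih =>
    rw [List.map_cons, List.sum_cons, Pi.add_apply, ih, List.count_cons]
    by_cases h : b = c
    · subst h
      simp [sg, add_comm]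
    · have h' : ¬ c = b := fun e => h e.symm
      simp [sg, h, h']

theorem inj_ty {l n : ℕ} (x : Fin n → ZMod l) (c : ZMod l) :
    tyc x c = ((List.ofFn x).count c : ℤ) := by
  rw [← inj_count, List.map_ofFn, List.sum_ofFn]
  rfl

theorem inj_dWt {l : ℕ} (d c : ZMod l) (hc : c ≠ d) (u : List (Lt3 l)) :
    dWt d u c = - ((u.map Prod.fst).count c : ℤ) := by
  induction u with
  | nil => simp [dWt]
  | cons a u ih =>
    have h1 : dWt d (a :: u) = (sg d - sg a.1) + dWt d u := by
      rw [dWt, dWt, List.map_cons, List.sum_cons]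
    rw [h1, Pi.add_apply, ih, List.map_cons, List.count_cons]
    by_cases h : a.1 = c
    · simp [sg, h, hc]
    · have h' : ¬ c = a.1 := fun e => h e.symm
      simp [sg, h, h', hc]

theorem inj_perm {α β : Type} (f : α → β) (L : List β) :
    ∀ u : List α, (u.map f).Perm L → ∃ u' : List α, u.Perm u' ∧ u'.map f = L := by
  classical
  induction L with
  | nil =>
    intro u hu
    exact ⟨u, List.Perm.refl u, List.Perm.eq_nil hu⟩
  | cons b L ih =>
    intro u hu
    have hb : b ∈ u.map f := hu.symm.subset (List.mem_cons_self)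
    obtain ⟨a, ha, rfl⟩ := List.mem_map.1 hb
    have h1 : u.Perm (a :: u.erase a) := List.perm_cons_erase ha
    have h2 : ((a :: u.erase a).map f).Perm (f a :: L) := (h1.map f).symm.trans hu
    rw [List.map_cons] at h2
    obtain ⟨u', h3, h4⟩ := ih (u.erase a) (List.Perm.cons_inv h2)
    exact ⟨a :: u', h1.trans (h3.cons a), by rw [List.map_cons, h4]⟩

theorem inj_ofFn {α : Type} (n : ℕ) (L : List α) (h : L.length = n) :
    ∃ v : Fin n → α, List.ofFn v = L := by
  subst h
  exact ⟨L.get, List.ofFn_get L⟩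

theorem inj_gr {l n : ℕ} [NeZero l] {T : Type} [AddCommGroup T] [Module ℂ T] (C : Cnt l n T)
    (d : ZMod l) (m : ZMod l → ℤ) (τ : T) (hτ : τ ∈ C.gr m) (u : List (Lt3 l))
    (hu : ∀ a ∈ u, a.1 ≠ d) : dOp C d u τ ∈ C.gr (m + dWt d u) := by
  induction u with
  | nil => simpa [dOp, dWt] using hτ
  | cons a u ih =>
    have h1 : dWt d (a :: u) = (sg d - sg a.1) + dWt d u := by
      rw [dWt, dWt, List.map_cons, List.sum_cons]
    have h2 : dOp C d (a :: u) = C.e d a.1 a.2.1 a.2.2 * dOp C d u := by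
      rw [dOp, dOp, List.map_cons, List.prod_cons]
    have h3 := ih (fun b hb => hu b (List.mem_cons_of_mem _ hb))
    have h4 := C.e_gr d a.1 a.2.1 a.2.2 (fun e => hu a List.mem_cons_self e.symm) _ _ h3
    have h5 : m + dWt d (a :: u) = m + dWt d u + sg d - sg a.1 := by
      rw [h1]; abel
    rw [h2, h5]
    exact h4

theorem inj_isTy {l : ℕ} [NeZero l] (n : ℕ) (d : ZMod l) : IsTy n (nd n d) := by
  refine ⟨fun c => ?_, ?_⟩
  · unfold nd
    split_ifs <;> simp
  · unfold nd
    simp

theorem s_inj (hLAU : S_LAU) : Pool.Agent.Helper19.SQ.S_INJ := by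
  intro l n _ T _ _ C hl d x hx lam hlam τ hτ hphi
  refine hLAU l n T C hl d (tyc x) τ hτ ?_
  intro u hu hw
  -- the letters of `u` are a permutation of `x`
  have hperm : (u.map Prod.fst).Perm (List.ofFn x) := by
    rw [List.perm_iff_count]
    intro c
    by_cases hc : c = d
    · subst hc
      rw [List.count_eq_zero_of_not_mem, List.count_eq_zero_of_not_mem]
      · intro h
        obtain ⟨k, hk⟩ := List.mem_ofFn.1 h
        exact hx k hk
      · intro h
        obtain ⟨a, ha, hac⟩ := List.mem_map.1 h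
        exact (hu a ha).1 hac
    · have h1 := congrFun hw c
      rw [Pi.add_apply, inj_ty, inj_dWt d c hc] at h1
      have h2 : nd n d c = 0 := by simp [nd, hc]
      rw [h2] at h1
      omega
  obtain ⟨u', h1, h2⟩ := inj_perm Prod.fst (List.ofFn x) u hperm
  have hlen : u'.length = n := by
    have := congrArg List.length h2
    rwa [List.length_map, List.length_ofFn] at this
  obtain ⟨v, rfl⟩ := inj_ofFn n u' hlen
  have hvx : ∀ k, (v k).1 = x k := by
    rw [List.map_ofFn] at h2
    exact fun k => congrFun (List.ofFn_injective h2) k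
  have hv0 : ∀ k, 0 ≤ (v k).2.2 := fun k =>
    (hu (v k) (h1.symm.subset (List.mem_ofFn.2 ⟨k, rfl⟩))).2
  -- the operator of `u`
  let a : Fin n → ℕ × ℕ := fun k => ((v k).2.1, (v k).2.2.toNat)
  have hop : dOp C d u = pOp C d x a := by
    have h3 : dOp C d u = dOp C d (List.ofFn v) := by
      unfold dOp
      refine (h1.map _).prod_eq' ?_
      refine List.pairwise_map.2 ?_
      refine List.Pairwise.imp_of_mem (R := fun _ _ => True) ?_
        (List.pairwise_of_forall (fun _ _ => trivial))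
      intro p q hp hq _
      exact C.com d p.1 d q.1 _ _ _ _ (fun e => (hu p hp).1 e.symm)
        (fun e => (hu q hq).1 e.symm) (hu p hp).1 (fun e => (hu q hq).1 e.symm)
    rw [h3]
    unfold dOp pOp
    rw [List.map_ofFn]
    congr 1
    refine congrArg List.ofFn ?_
    funext k
    have h4 : (((v k).2.2.toNat : ℕ) : ℤ) = (v k).2.2 := Int.toNat_of_nonneg (hv0 k)
    show C.e d (v k).1 (v k).2.1 (v k).2.2 = C.e d (x k) (v k).2.1 (((v k).2.2.toNat : ℕ) : ℤ)
    rw [h4, hvx k]
  -- `y ∈ gr (nd n d)`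
  have hy : dOp C d u τ ∈ C.gr (nd n d) := by
    have := inj_gr C d (tyc x) τ hτ u (fun b hb => (hu b hb).1)
    rwa [hw] at this
  have hch : C.ch (nd n d) ∈ C.gr (nd n d) := C.ch_mem _ (inj_isTy n d)
  have := C.fd
  have hne : (⟨C.ch (nd n d), hch⟩ : C.gr (nd n d)) ≠ 0 := by
    intro h
    exact C.ch_ne d (congrArg Subtype.val h)
  have : Nontrivial (C.gr (nd n d)) := ⟨⟨_, _, hne⟩⟩
  have hfr : Module.finrank ℂ (C.gr (nd n d)) = 1 :=
    le_antisymm (C.one d) Module.finrank_pos
  obtain ⟨c, hc⟩ := (finrank_eq_one_iff_of_nonzero' _ hne).1 hfr ⟨dOp C d u τ, hy⟩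
  have hc' : c • C.ch (nd n d) = dOp C d u τ := congrArg Subtype.val hc
  -- `lam y = 0`
  let s : (Fin n ⊕ Fin n) →₀ ℕ :=
    Finsupp.equivFunOnFinite.symm (Sum.elim (fun k => (a k).1) (fun k => (a k).2))
  have hs : exps s = a := by
    funext k
    simp [exps, s]
  have h5 : lam (dOp C d u τ) = 0 := by
    have h6 := phi_monomial C d x lam τ s
    rw [hphi, hs, ← hop] at h6
    rw [← h6]
    rfl
  rw [← hc', map_smul, smul_eq_mul, mul_eq_zero] at h5
  rcases h5 with h5 | h5
  · rw [← hc', h5, zero_smul]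
  · exact absurd h5 hlam

end

end Pool.Agent.Helper46.SQ
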