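import Pool.Agent.Helper4.SQ.GoalsR2
import Pool.Agent.Helper6.SQ.STT

/-!
# Packet SQR-ST1 (MP_bb32d1_al): traces on a Steinberg block are proportional
-/

namespace Pool.Agent.Helper46.SQ

open Pool.Agent.Helper19.SQ Pool.Agent.Helper16.SQ Pool.Agent.Helper6.SQ

noncomputable section

variable {N l : ℕ} {q : ℂ}

/-- there is an element `f` such that a trace on the block which vanishes at `f` is zero -/
theorem exists_f (hGAM : S_GAM) (hTRI : S_TRI) (hSPAN : S_SPAN) (hMONW : S_MONW)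
    (hHTOP : S_HTOP) (hSV : S_SV) (hFDIM : S_FDIM) (N l : ℕ) [NeZero l] (q : ℂ) (hl0 : l ≠ 0)
    (hP : Par N l q) (c : ZMod l) (e : A N l q) (hec : ∀ a, e * a = a * e)
    (heS : ∀ (M : Type) [AddCommGroup M] [Module ℂ M] [Module (A N l q) M]
      [IsScalarTower ℂ (A N l q) M] [FiniteDimensional ℂ M] (lam : Fin (N + 1) → ZMod l) (v : M),
      Sing q lam v → ((∀ j : Fin (N + 1), lam j = c + ((j : ℕ) : ZMod l)) → e • v = v) ∧
        ((¬ ∀ j : Fin (N + 1), lam j = c + ((j : ℕ) : ZMod l)) → e • v = 0)) :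
    ∃ f : A N l q, ∀ τ : A N l q →ₗ[ℂ] ℂ, (∀ x y, τ (x * y) = τ (y * x)) →
      (∀ x, τ (x * e) = τ x) → τ f = 0 → τ = 0 := by
  obtain ⟨hl, hq0, hq2, hqm⟩ := par_facts hP
  obtain ⟨γ, hγ0, hγ⟩ := hGAM N l q hP c
  set ET := mon N q (gE N l q) (topE N l) with hET
  set FT := mon N q (gF N l q) (topE N l) with hFT
  set cc : ℕ → ℂ := fun j => qz q (c + (j : ZMod l)) with hcc
  have hcc0 : ∀ j, cc j ≠ 0 := fun j => pow_ne_zero _ hq0
  have hccl : ∀ j, cc j ^ l = 1 := by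
    intro j
    change (q ^ _) ^ l = 1
    rw [← pow_mul, mul_comm, pow_mul, hP.prim.pow_eq_one, one_pow]
  set P := pm N l q cc (N + 1) with hPdef
  set y := P * ET with hy
  have hyE : ∀ k, gE N l q k * y = 0 := by
    intro k
    obtain ⟨x, hx⟩ := pm_E (N := N) (l := l) hq0 cc k (N + 1)
    rw [hy, ← mul_assoc, hx, mul_assoc, hET, E_top hSPAN hMONW hHTOP hP, mul_zero]
  have hyK : ∀ j < N + 1, gK N l q j * y = cc j • y := by
    intro j hj
    rw [hy, ← mul_assoc, pm_K cc hcc0 hccl (N + 1) j hj, smul_mul_assoc]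
  have hyS : Sing q (fun j : Fin (N + 1) => c + ((j : ℕ) : ZMod l)) y :=
    ⟨hyE, fun j => hyK j j.2⟩
  have hyP : P * y = y := by
    exact pm_smul (N := N) (q := q) (M := A N l q) hl0 cc hcc0 (N + 1) y (fun j hj => hyK j hj)
  have hyγ : ET * (FT * y) = γ • y := hγ (A N l q) y hyS
  have htop := top_A hTRI hMONW hHTOP hP y _ hyS γ hyγ
  set f := γ⁻¹ • (FT * y) with hf
  have hfxf : ∀ x, ∃ d : ℂ, f * x * f = d • f := by
    intro x
    obtain ⟨d, hd⟩ := htop (x * FT)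
    refine ⟨γ⁻¹ * d, ?_⟩
    have e1 : FT * (P * ET) * x * (FT * y) = FT * (P * (ET * (x * FT * y))) := by
      simp only [mul_assoc]
    rw [hf, smul_mul_assoc, smul_mul_assoc, mul_smul_comm]
    conv_lhs => rw [show FT * y * x * (FT * y) = FT * (P * ET) * x * (FT * y) from rfl]
    rw [e1, hd, mul_smul_comm, hyP, mul_smul_comm]
    simp only [smul_smul]
    congr 1
    ring
  have hff : f * f = f := by
    have e1 : FT * (P * ET) * (FT * y) = FT * (P * (ET * (FT * y))) := by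
      simp only [mul_assoc]
    rw [hf, smul_mul_assoc, mul_smul_comm]
    conv_lhs => rw [show FT * y * (FT * y) = FT * (P * ET) * (FT * y) from rfl]
    rw [e1, hyγ, mul_smul_comm, hyP, mul_smul_comm, smul_smul, smul_smul]
    congr 1
    field_simp
  refine ⟨f, ?_⟩
  intro τ htr hτe hτf
  have hτxfz : ∀ x z, τ (x * (f * z)) = 0 := by
    intro x z
    obtain ⟨d, hd⟩ := hfxf (z * x)
    have e1 : x * (f * z) = (x * f) * (f * z) := by
      rw [mul_assoc x f, ← mul_assoc f f, hff]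
    have e2 : f * z * (x * f) = f * (z * x) * f := by simp only [mul_assoc]
    rw [e1, htr, e2, hd, map_smul, hτf, smul_zero]
  -- the radical of the trace form
  let J : Submodule (A N l q) (A N l q) :=
    { carrier := {z | ∀ x, τ (x * z) = 0}
      zero_mem' := fun x => by rw [mul_zero, map_zero]
      add_mem' := fun {a b} ha hb x => by rw [mul_add, map_add, ha, hb, add_zero]
      smul_mem' := fun a z hz x => by rw [smul_eq_mul, ← mul_assoc]; exact hz _ }
  have hJ : ∀ z, z ∈ J ↔ ∀ x, τ (x * z) = 0 := fun z => Iff.rfl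
  by_contra hτ
  have h1J : (1 : A N l q) ∉ J := by
    intro h
    apply hτ
    ext x
    have := (hJ 1).1 h x
    rw [mul_one] at this
    rw [this]; rfl
  have := hFDIM N l q hP
  have : FiniteDimensional ℂ (A N l q ⧸ J) :=
    Module.Finite.of_surjective (J.mkQ.restrictScalars ℂ) (Submodule.mkQ_surjective J)
  obtain ⟨lam, v, hv0, hv⟩ := hSV N l q hP (A N l q ⧸ J)
    ⟨Submodule.Quotient.mk 1, fun h => h1J ((Submodule.Quotient.mk_eq_zero J).1 h)⟩
  have hev : e • v = v := by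
    obtain ⟨z, rfl⟩ := Submodule.Quotient.mk_surjective J v
    rw [← Submodule.Quotient.mk_smul, Submodule.Quotient.eq, hJ]
    intro x
    rw [smul_eq_mul, hec, mul_sub, ← mul_assoc, map_sub, hτe, sub_self]
  have hfv : ∀ w : A N l q ⧸ J, f • w = 0 := by
    intro w
    obtain ⟨z, rfl⟩ := Submodule.Quotient.mk_surjective J w
    rw [← Submodule.Quotient.mk_smul, Submodule.Quotient.mk_eq_zero, hJ]
    intro x
    exact hτxfz x z
  have h3 := heS (A N l q ⧸ J) lam v hv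
  by_cases hlam : ∀ j : Fin (N + 1), lam j = c + ((j : ℕ) : ZMod l)
  · have hlam' : lam = fun j : Fin (N + 1) => c + ((j : ℕ) : ZMod l) := funext hlam
    subst hlam'
    have h4 : ET • FT • v = γ • v := hγ (A N l q ⧸ J) v hv
    have h5 : P • v = v := pm_smul hl0 cc hcc0 (N + 1) v fun j hj => hv.2 ⟨j, hj⟩
    have h6 := hfv (FT • v)
    rw [hf, smul_assoc, mul_smul, hy, mul_smul, h4, hc_smul_comm, h5, hc_smul_comm, smul_smul,
      inv_mul_cancel₀ hγ0, one_smul] at h6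
    rw [h6, smul_zero] at h4
    rcases smul_eq_zero.1 h4.symm with h7 | h7
    · exact hγ0 h7
    · exact hv0 h7
  · have h4 := h3.2 hlam
    rw [hev] at h4
    exact hv0 h4

theorem sST1 (hGAM : S_GAM) (hTRI : S_TRI) (hSPAN : S_SPAN) (hMONW : S_MONW)
    (hHTOP : S_HTOP) (hSV : S_SV) (hFDIM : S_FDIM) : Pool.Agent.Helper4.SQ.S_ST1 := by
  intro N l _ q hl0 hP s c e hec hee heS τ₁ τ₂ htr₁ htr₂ he₁ he₂ h1
  obtain ⟨f, hf⟩ := exists_f hGAM hTRI hSPAN hMONW hHTOP hSV hFDIM N l q hl0 hP c e hec heS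
  have h1f : τ₁ f ≠ 0 := fun h => h1 (hf τ₁ htr₁ he₁ h)
  have h2 : τ₂ f • τ₁ - τ₁ f • τ₂ = 0 := by
    apply hf
    · intro x y
      simp only [LinearMap.sub_apply, LinearMap.smul_apply]
      rw [htr₁ x y, htr₂ x y]
    · intro x
      simp only [LinearMap.sub_apply, LinearMap.smul_apply]
      rw [he₁ x, he₂ x]
    · simp only [LinearMap.sub_apply, LinearMap.smul_apply, smul_eq_mul]
      ring
  refine ⟨τ₂ f / τ₁ f, ?_⟩
  have h3 : τ₂ f • τ₁ = τ₁ f • τ₂ := sub_eq_zero.1 h2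
  have h4 : τ₂ = (τ₁ f)⁻¹ • (τ₁ f • τ₂) := by
    rw [smul_smul, inv_mul_cancel₀ h1f, one_smul]
  calc τ₂ = (τ₁ f)⁻¹ • (τ₁ f • τ₂) := h4
    _ = (τ₁ f)⁻¹ • (τ₂ f • τ₁) := congrArg _ h3.symm
    _ = (τ₂ f / τ₁ f) • τ₁ := by rw [smul_smul, div_eq_inv_mul]

end

end Pool.Agent.Helper46.SQ
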