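import Pool.Agent.Helper84.SQ.GoalsD

/-!
# Project SQ, packet ALN: infeasibility
-/

namespace Pool.Agent.Helper46.SQ

open Pool.Agent.Helper84.SQ Pool.Agent.Helper81.CC Pool.Agent.Bin
open Pool.Agent.Helper45.SQP (Inst TUInst Correct Code Output)

theorem aln (hapr : AprStmt) (hcda : CdaStmt) (hcdb : CdbStmt) (htrc : TrcStmt) : AlnStmt := by
  intro p K hK I
  obtain ⟨hlen, hok, hsol, hw⟩ := hcda I.1 I.2.1
  obtain ⟨hGl, hVlt, hVl, hVm, hcoef, hf⟩ := hcdb I.1
  have hfea : ∀ x : Fin I.1.n → ℤ, x ∈ I.1.feasible ↔ x ∈ Fea I.1.W I.1.w := fun x => Iff.rfl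
  have hA := hapr (szC I.1.code + 2) I.1.n K p (vinC I.1.code) (trcC I.1.code) (fobC I.1.code)
    (gobC I.1.code) hok hVlt (by rw [hVl]; exact I.2.2) hK hGl hcoef
  have hal : alg p K I.1.code = appr (szC I.1.code + 2) I.1.n K p (vinC I.1.code)
    (trcC I.1.code) (fobC I.1.code) (gobC I.1.code) := by
    unfold alg
    rw [hlen]
  rw [hal]
  constructor
  · intro h
    have h0 := hA.1 h
    rw [Set.eq_empty_iff_forall_notMem]
    intro x hx
    obtain ⟨y, hy, hyb, -⟩ := htrc I.1.m I.1.n I.1.W I.1.w I.2.1 x ((hfea x).1 hx)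
    have h1 : y ∈ Sol I.1.n (trcC I.1.code) :=
      (hsol y).2 ⟨(hfea y).2 hy, fun j => (hyb j).trans hw⟩
    rw [h0] at h1
    exact h1
  · intro h
    cases hx : appr (szC I.1.code + 2) I.1.n K p (vinC I.1.code)
      (trcC I.1.code) (fobC I.1.code) (gobC I.1.code) with
    | none => rfl
    | some x =>
      exfalso
      have h1 := (hA.2 x hx).2.1
      have h2 := ((hsol _).1 h1).1
      rw [h] at h2
      exact h2

end Pool.Agent.Helper46.SQ
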