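import Pool.Agent.Helper84.SQ.GoalsB
import Pool.Agent.Helper24.FR.VAL0

/-!
# Project SQ, packet FHV: values of the elementary functions
-/

namespace Pool.Agent.Helper46.SQ

open Pool.Agent.Helper84.SQ Pool.Agent.Helper81.CC Pool.Agent.Bin
open Pool.Agent.Helper92.FR (Qn Cst dot cut cini cen lv)

theorem zip_ofFn {α β γ : Type} (g : α → β → γ) (d : ℕ) (F : List α) (x : List β) (a : α) (b : β)
    (hF : F.length = d) (hx : x.length = d) :
    List.zipWith g F x = List.ofFn (fun j : Fin d => g (F.getD j a) (x.getD j b)) := by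
  apply List.ext_getElem
  · simp [hF, hx]
  · intro i h1 h2
    have h3 : i < F.length := by
      have : i < d := by simpa using h2
      omega
    have h4 : i < x.length := by
      have : i < d := by simpa using h2
      omega
    simp [h3, h4]

theorem val_slp (c : BN × Zn) (y : Qn) :
    (Zn.val (slp c y) : ℝ) = sl (c.1.val : ℤ) (Zn.val c.2) (Qn.val y) := by
  unfold slp sl
  simp only [Zn.val_add, Zn.val_mul, Zn.val_bn, val_flz, Zn.val_one]
  push_cast
  ring

theorem val_off (c : BN × Zn) (y : Qn) :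
    (Zn.val (off c y) : ℝ) = (c.1.val : ℝ) * (⌊Qn.val y⌋ * (⌊Qn.val y⌋ + 1)) := by
  unfold off
  simp only [Zn.val_add, Zn.val_mul, Zn.val_bn, val_flz, Zn.val_one]
  push_cast
  ring

theorem fhv : FhvStmt := by
  intro d F x hlF hlx
  refine ⟨?_, ?_, ?_, ?_⟩
  · unfold fh plF
    rw [zip_ofFn _ d F x (⟨0⟩, Zn.zero) Qn.zero hlF hlx, Qn.val_sum, List.map_ofFn, List.sum_ofFn]
    apply Finset.sum_congr rfl
    intro j _
    simp only [Function.comp_apply, Qn.val_sub, Qn.val_mul, Zn.val_q, val_slp, val_off]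
    unfold pl qF hF lv
    push_cast
    rfl
  · unfold grd
    simp [hlF, hlx]
  · intro j
    have h1 : (j : ℕ) < F.length := by omega
    have h2 : (j : ℕ) < x.length := by omega
    have h3 : (j : ℕ) < (grd F x).length := by
      unfold grd
      simp [hlF, hlx]
    unfold lv
    rw [List.getD_eq_getElem _ _ h3]
    unfold grd
    rw [List.getElem_zipWith, Zn.val_q, val_slp]
    unfold qF hF
    rw [List.getD_eq_getElem _ _ h1, List.getD_eq_getElem _ _ h2]
  · intro D r hr
    have hmap : ∀ j, lv d (r.1.map Zn.q) j = (lz d r.1 j : ℝ) := by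
      intro j
      have h1 : (j : ℕ) < r.1.length := by omega
      have h2 : (j : ℕ) < (r.1.map Zn.q).length := by simpa using h1
      unfold lv lz
      rw [List.getD_eq_getElem _ _ h2, List.getD_eq_getElem _ _ h1, List.getElem_map, Zn.val_q]
    refine ⟨?_, by simpa using hr, hmap⟩
    unfold okr
    rw [Qn.le_iff, Qn.val_add, Zn.val_q,
      Pool.Agent.Helper24.FR.dot_val (r.1.map Zn.q) d x (by simpa using hr) hlx]
    have h5 : Qn.val ((⟨1⟩, ⟨0⟩, BN.pow2 D - ⟨1⟩) : Qn) = 1 / 2 ^ D := by
      have h6 : (1 : ℕ) ≤ 2 ^ D := Nat.one_le_two_pow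
      have h7 : ((BN.pow2 D - ⟨1⟩ : BN)).val = 2 ^ D - 1 := by
        simp [BN.val_sub, BN.val_pow2]
      unfold Qn.val
      simp only
      rw [h7, Nat.cast_sub h6]
      push_cast
      ring
    rw [h5]
    simp only [hmap]

end Pool.Agent.Helper46.SQ
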